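import Mathlib

/-!
# Symplectic capacities, toric domains and the capacity ratio

All the notions of the problem, for subsets of `ℂⁿ = (Fin n → ℂ)`.
-/

open MeasureTheory
open scoped ContDiff ENNReal Pointwise

namespace Pool.Agent.Lib.MP_d1c05b_gt

variable {n : ℕ}

/-- The standard symplectic form `∑ dx_j ∧ dy_j` of `ℂⁿ`. -/
def omega (u v : Fin n → ℂ) : ℝ := ∑ j, ((u j).re * (v j).im - (u j).im * (v j).re)

/-- A symplectomorphism of `ℂⁿ`: a smooth bijection whose derivative preserves `omega`. -/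
structure IsSymplectomorphism (ψ : (Fin n → ℂ) → (Fin n → ℂ)) : Prop where
  bijective : Function.Bijective ψ
  smooth : ContDiff ℝ ∞ ψ
  preserves : ∀ z u v : Fin n → ℂ, omega (fderiv ℝ ψ z u) (fderiv ℝ ψ z v) = omega u v

/-- The set `E(a) = {z : ∑_j π|z_j|²/a_j ≤ 1}`, for `a_j ∈ [0,∞]`. -/
def ellipsoid (a : Fin n → ℝ≥0∞) : Set (Fin n → ℂ) :=
  {z | ∑ j, ENNReal.ofReal (Real.pi * ‖z j‖ ^ 2) / a j ≤ 1}

/-- The `k`-th smallest term, counted with multiplicity, of the multiset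
`{m a_j : m ≥ 1, a_j < ∞}`: the least `t` such that at least `k` of its terms are `≤ t`. -/
noncomputable def kthTerm (k : ℕ) (a : Fin n → ℝ≥0∞) : ℝ≥0∞ :=
  sInf {t | (k : ℕ∞) ≤
    Set.encard {p : ℕ × Fin n | 1 ≤ p.1 ∧ a p.2 ≠ ⊤ ∧ (p.1 : ℝ≥0∞) * a p.2 ≤ t}}

/-- A symplectic `k`-capacity on `ℂⁿ`: monotonicity under symplectic embeddings by
symplectomorphisms of `ℂⁿ`, scaling, and the values on ellipsoids. -/
structure IsCapacity (k : ℕ) (c : Set (Fin n → ℂ) → ℝ≥0∞) : Prop where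
  mono : ∀ (ψ : (Fin n → ℂ) → (Fin n → ℂ)) (U V : Set (Fin n → ℂ)),
    IsSymplectomorphism ψ → ψ '' U ⊆ V → c U ≤ c V
  scaling : ∀ (b : ℝ) (U : Set (Fin n → ℂ)), c (b • U) = ENNReal.ofReal (b ^ 2) * c U
  ellipsoids : ∀ a : Fin n → ℝ≥0∞, (∀ j, 0 < a j) → (∃ j, a j ≠ ⊤) →
    c (ellipsoid a) = kthTerm k a

/-- The symplectic volume `∫_B ωⁿ`, that is, `n!` times the Lebesgue measure. -/
noncomputable def vol (B : Set (Fin n → ℂ)) : ℝ≥0∞ := (n.factorial : ℝ≥0∞) * volume B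

/-- The capacity ratio `c(B)/vol(B)^{1/n}`. -/
noncomputable def ratio (c : Set (Fin n → ℂ) → ℝ≥0∞) (B : Set (Fin n → ℂ)) : ℝ≥0∞ :=
  c B / vol B ^ ((1 : ℝ) / n)

/-- The polydisk `P(1,…,1)`. -/
def polydisk (n : ℕ) : Set (Fin n → ℂ) := {z | ∀ j, Real.pi * ‖z j‖ ^ 2 ≤ 1}

/-- The supremum of the capacity ratio over ellipsoids with finite positive parameters. -/
noncomputable def ellipsoidMax (c : Set (Fin n → ℂ) → ℝ≥0∞) : ℝ≥0∞ :=
  ⨆ (a : Fin n → ℝ≥0∞) (_ : ∀ j, 0 < a j ∧ a j ≠ ⊤), ratio c (ellipsoid a)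

/-- `κ` is the least integer `≥ 2` such that the ratio of the polydisk is at least the maximal
ratio of ellipsoids for all `k ≥ κ`. -/
def IsKappa (c : ℕ → Set (Fin n → ℂ) → ℝ≥0∞) (κ : ℕ) : Prop :=
  IsLeast {m : ℕ | 2 ≤ m ∧ ∀ k, m ≤ k → ellipsoidMax (c k) ≤ ratio (c k) (polydisk n)} κ

/-- The set `X_Ω = {z : (π|z_1|²,…,π|z_n|²) ∈ Ω}`. -/
def toricSet (Ω : Set (Fin n → ℝ)) : Set (Fin n → ℂ) :=
  {z | (fun j => Real.pi * ‖z j‖ ^ 2) ∈ Ω}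

/-- A toric domain: the closure of a nonempty open set which is invariant under coordinatewise
rotation. -/
def IsToricDomain (X : Set (Fin n → ℂ)) : Prop :=
  ∃ U : Set (Fin n → ℂ), IsOpen U ∧ U.Nonempty ∧
    (∀ z ∈ U, ∀ θ : Fin n → ℝ, (fun j => Complex.exp (θ j * Complex.I) * z j) ∈ U) ∧
    X = closure U

/-- `Ω ⊆ [0,∞)ⁿ` defines a convex toric domain `X_Ω`. -/
structure IsConvexProfile (Ω : Set (Fin n → ℝ)) : Prop where
  nonneg : ∀ x ∈ Ω, ∀ j, 0 ≤ x j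
  compact : IsCompact {x : Fin n → ℝ | (fun j => |x j|) ∈ Ω}
  convex : Convex ℝ {x : Fin n → ℝ | (fun j => |x j|) ∈ Ω}
  toric : IsToricDomain (toricSet Ω)

/-- A convex toric domain. -/
def IsConvexToricDomain (X : Set (Fin n → ℂ)) : Prop :=
  ∃ Ω : Set (Fin n → ℝ), IsConvexProfile Ω ∧ X = toricSet Ω

/-- The lower bound of the Gutt-Hutchings formula for `c_k` on convex toric domains:
`c_k(X_Ω) ≥ min_{v ∈ ℕⁿ, |v| = k} max_{w ∈ Ω} ⟨v, w⟩`. -/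
def GuttHutchingsLower (k : ℕ) (c : Set (Fin n → ℂ) → ℝ≥0∞) : Prop :=
  ∀ Ω : Set (Fin n → ℝ), IsConvexProfile Ω →
    (⨅ (v : Fin n → ℕ) (_ : ∑ j, v j = k), ⨆ w ∈ Ω, ENNReal.ofReal (∑ j, (v j : ℝ) * w j))
      ≤ c (toricSet Ω)

end Pool.Agent.Lib.MP_d1c05b_gt
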