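import Pool.Agent.Lib.MP_d1c05b_gt.Volume

open MeasureTheory
open scoped ContDiff ENNReal Pointwise

namespace Pool.Agent.Lib.MP_d1c05b_gt

variable {n : ℕ}

/-- If fewer than `k` terms are `≤ s`, then the sum of the floors `⌊s / b_j⌋` is less than `k`. -/
theorem sum_floor_lt (k : ℕ) (b : Fin n → ℝ) (hb : ∀ j, 0 < b j) (s : ℝ) (hs : 0 ≤ s)
    (h : ENNReal.ofReal s < kthTerm k fun j => ENNReal.ofReal (b j)) :
    ∑ j, ⌊s / b j⌋₊ < k := by
  by_contra hcon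
  rw [not_lt] at hcon
  apply absurd h
  rw [not_lt]
  apply sInf_le
  simp only [Set.mem_ofPred_eq]
  set S : Set (ℕ × Fin n) := {p : ℕ × Fin n | 1 ≤ p.1 ∧ ENNReal.ofReal (b p.2) ≠ ⊤ ∧
    (p.1 : ℝ≥0∞) * ENNReal.ofReal (b p.2) ≤ ENNReal.ofReal s} with hS
  let F : Finset (ℕ × Fin n) := Finset.univ.biUnion fun j =>
    (Finset.Icc 1 ⌊s / b j⌋₊).image fun m => (m, j)
  have hF : F.card = ∑ j, ⌊s / b j⌋₊ := by
    rw [Finset.card_biUnion]
    · refine Finset.sum_congr rfl fun j _ => ?_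
      rw [Finset.card_image_of_injective _ (fun x y hxy => (Prod.mk.inj hxy).1)]
      simp
    · intro i _ j _ hij
      rw [Function.onFun, Finset.disjoint_left]
      intro p hp hq
      rw [Finset.mem_image] at hp hq
      obtain ⟨_, _, rfl⟩ := hp
      obtain ⟨_, _, h2⟩ := hq
      exact hij (Prod.mk.inj h2).2.symm
  have hsub : (F : Set (ℕ × Fin n)) ⊆ S := by
    intro p hp
    rw [Finset.mem_coe, Finset.mem_biUnion] at hp
    obtain ⟨j, _, hp⟩ := hp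
    rw [Finset.mem_image] at hp
    obtain ⟨m, hm, rfl⟩ := hp
    rw [Finset.mem_Icc] at hm
    refine ⟨hm.1, ENNReal.ofReal_ne_top, ?_⟩
    simp only
    rw [← ENNReal.ofReal_natCast, ← ENNReal.ofReal_mul (by positivity)]
    apply ENNReal.ofReal_le_ofReal
    have h1 : (m : ℝ) ≤ s / b j :=
      (Nat.le_floor_iff (by have := hb j; positivity)).1 hm.2
    rwa [le_div_iff₀ (hb j)] at h1
  calc (k : ℕ∞) ≤ ((∑ j, ⌊s / b j⌋₊ : ℕ) : ℕ∞) := by exact_mod_cast hcon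
    _ = (F : Set (ℕ × Fin n)).encard := by rw [Set.encard_coe_eq_coe_finsetCard, hF]
    _ ≤ S.encard := Set.encard_le_encard hsub

/-- If `B` bounds the product of `n` positive integers with sum at most `k - 1 + n`, then the
`k`-th term is at most `(B ∏ b_j)^{1/n}`. -/
theorem kthTerm_le [NeZero n] (k : ℕ) (B : ℝ)
    (hB : ∀ m : Fin n → ℕ, (∀ j, 1 ≤ m j) → ∑ j, m j < k + n → ∏ j, (m j : ℝ) ≤ B)
    (b : Fin n → ℝ) (hb : ∀ j, 0 < b j) :
    kthTerm k (fun j => ENNReal.ofReal (b j))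
      ≤ ENNReal.ofReal ((B * ∏ j, b j) ^ ((1 : ℝ) / n)) := by
  have hprod : 0 < ∏ j, b j := Finset.prod_pos fun j _ => hb j
  have hn : (n : ℝ) ≠ 0 := by exact_mod_cast NeZero.ne n
  rw [← not_lt]
  intro hlt
  obtain ⟨s, hs0, hs1, hs2⟩ := ENNReal.lt_iff_exists_real_btwn.1 hlt
  have hfl := sum_floor_lt k b hb s hs0 hs2
  have h1 : ∏ j, ((⌊s / b j⌋₊ + 1 : ℕ) : ℝ) ≤ B := by
    refine hB (fun j => ⌊s / b j⌋₊ + 1) (fun j => by omega) ?_
    rw [Finset.sum_add_distrib]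
    simp
    omega
  have h2 : ∏ j, (s / b j) ≤ ∏ j, ((⌊s / b j⌋₊ + 1 : ℕ) : ℝ) := by
    refine Finset.prod_le_prod (fun j _ => by have := hb j; positivity) fun j _ => ?_
    have := Nat.lt_floor_add_one (s / b j)
    push_cast
    linarith
  have h3 : s ^ n / ∏ j, b j ≤ B := by
    have h4 : ∏ j, (s / b j) = s ^ n / ∏ j, b j := by
      rw [Finset.prod_div_distrib, Finset.prod_const, Finset.card_univ, Fintype.card_fin]
    rw [← h4]; exact h2.trans h1
  have h5 : s ^ n ≤ B * ∏ j, b j := by rwa [div_le_iff₀ hprod] at h3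
  have h6 : s ≤ (B * ∏ j, b j) ^ ((1 : ℝ) / n) := by
    calc s = (s ^ n) ^ ((1 : ℝ) / n) := by
          rw [← Real.rpow_natCast, ← Real.rpow_mul hs0]
          rw [mul_one_div_cancel hn, Real.rpow_one]
      _ ≤ _ := Real.rpow_le_rpow (by positivity) h5 (by positivity)
  exact absurd (ENNReal.ofReal_le_ofReal h6) (not_le.2 hs1)

theorem ellipsoidMax_le [NeZero n] (k : ℕ) (c : Set (Fin n → ℂ) → ℝ≥0∞) (hc : IsCapacity k c)
    (B : ℝ) (hB0 : 0 ≤ B)
    (hB : ∀ m : Fin n → ℕ, (∀ j, 1 ≤ m j) → ∑ j, m j < k + n → ∏ j, (m j : ℝ) ≤ B) :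
    ellipsoidMax c ≤ ENNReal.ofReal (B ^ ((1 : ℝ) / n)) := by
  unfold ellipsoidMax
  refine iSup₂_le fun a ha => ?_
  have hn : (0 : ℝ) ≤ (1 : ℝ) / n := by positivity
  set b : Fin n → ℝ := fun j => (a j).toReal with hbdef
  have hb : ∀ j, 0 < b j := fun j => ENNReal.toReal_pos (ha j).1.ne' (ha j).2
  have hab : a = fun j => ENNReal.ofReal (b j) := by
    funext j
    exact (ENNReal.ofReal_toReal (ha j).2).symm
  have hprod : 0 < ∏ j, b j := Finset.prod_pos fun j _ => hb j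
  unfold ratio
  rw [hc.ellipsoids a (fun j => (ha j).1) ⟨0, (ha 0).2⟩, hab, vol_ellipsoid b hb]
  rw [ENNReal.ofReal_rpow_of_pos hprod]
  refine ENNReal.div_le_of_le_mul ?_
  rw [← ENNReal.ofReal_mul (by positivity)]
  refine (kthTerm_le k B hB b hb).trans (ENNReal.ofReal_le_ofReal ?_)
  rw [Real.mul_rpow hB0 hprod.le]

theorem prod_le_two_pow (k : ℕ) (m : Fin n → ℕ) (hm : ∀ j, 1 ≤ m j)
    (hsum : ∑ j, m j < k + n) : ∏ j, (m j : ℝ) ≤ 2 ^ (k - 1) := by
  have h1 : ∏ j, m j ≤ ∏ j, 2 ^ (m j - 1) := by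
    refine Finset.prod_le_prod' fun j _ => ?_
    have : m j - 1 < 2 ^ (m j - 1) := Nat.lt_two_pow_self
    have := hm j
    omega
  rw [Finset.prod_pow_eq_pow_sum] at h1
  have h2 : ∑ j, (m j - 1) ≤ k - 1 := by
    have h3 : ∑ j, (m j - 1) + n = ∑ j, m j := by
      have : ∑ j : Fin n, (m j - 1 + 1) = ∑ j, m j :=
        Finset.sum_congr rfl fun j _ => by have := hm j; omega
      rw [← this, Finset.sum_add_distrib]
      simp
    omega
  have h4 : ∏ j, m j ≤ 2 ^ (k - 1) := h1.trans (Nat.pow_le_pow_right (by norm_num) h2)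
  exact_mod_cast h4

theorem prod_le_amgm [NeZero n] (k : ℕ) (m : Fin n → ℕ) (hsum : ∑ j, m j < k + n) :
    ∏ j, (m j : ℝ) ≤ (((k : ℝ) + n - 1) / n) ^ n := by
  have hn : (0 : ℝ) < n := by exact_mod_cast Nat.pos_of_ne_zero (NeZero.ne n)
  have h := Real.geom_mean_le_arith_mean_weighted Finset.univ (fun _ : Fin n => (1 : ℝ) / n)
    (fun j => (m j : ℝ)) (fun _ _ => by positivity) (by simp) (fun _ _ => by positivity)
  have h1 : (∏ j, (m j : ℝ)) ^ ((1 : ℝ) / n) ≤ ((k : ℝ) + n - 1) / n := by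
    rw [← Real.finsetProd_rpow _ _ (fun _ _ => by positivity)]
    refine h.trans ?_
    rw [← Finset.mul_sum, one_div, inv_mul_eq_div]
    have h2 : (∑ j, (m j : ℝ)) + 1 ≤ k + n := by
      have : ∑ j, m j + 1 ≤ k + n := hsum
      exact_mod_cast this
    gcongr
    linarith
  calc ∏ j, (m j : ℝ) = ((∏ j, (m j : ℝ)) ^ ((1 : ℝ) / n)) ^ n := by
        rw [← Real.rpow_natCast, ← Real.rpow_mul (Finset.prod_nonneg fun _ _ => by positivity)]
        rw [one_div_mul_cancel hn.ne', Real.rpow_one]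
    _ ≤ _ := by gcongr

end Pool.Agent.Lib.MP_d1c05b_gt
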