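import Mathlib

namespace Pool.Agent.Lib.MP_d1c05b_gt

/-- Three terms of the binomial expansion. -/
theorem one_add_pow_ge (x : ℝ) (hx : 0 ≤ x) (N : ℕ) :
    1 + N * x + N * (N - 1) / 2 * x ^ 2 ≤ (1 + x) ^ N := by
  induction N with
  | zero => simp
  | succ N ih =>
    rw [pow_succ]
    have h1 : (1 + N * x + N * (N - 1) / 2 * x ^ 2) * (1 + x) ≤ (1 + x) ^ N * (1 + x) :=
      mul_le_mul_of_nonneg_right ih (by linarith)
    refine le_trans ?_ h1
    push_cast
    have h2 : 0 ≤ (N : ℝ) * (N - 1) / 2 * x ^ 3 := by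
      rcases Nat.eq_zero_or_pos N with h | h
      · subst h; simp
      · have : (1 : ℝ) ≤ N := by exact_mod_cast h
        have : (0 : ℝ) ≤ (N : ℝ) - 1 := by linarith
        positivity
    nlinarith [h2]

/-- `2^{n-2} n! ≤ (n-1)^n` for `n ≥ 5`, written with `n = m + 1`. -/
theorem two_pow_mul_factorial_le (m : ℕ) (hm : 4 ≤ m) :
    (2 : ℝ) ^ (m - 1) * (m + 1).factorial ≤ (m : ℝ) ^ (m + 1) := by
  induction m, hm using Nat.le_induction with
  | base => norm_num [Nat.factorial]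
  | succ m hm ih =>
    have hm0 : (0 : ℝ) < m := by
      have : 0 < m := by omega
      exact_mod_cast this
    have hm4 : (4 : ℝ) ≤ m := by exact_mod_cast hm
    have h1 : (2 : ℝ) ^ (m + 1 - 1) = 2 * 2 ^ (m - 1) := by
      rw [← pow_succ']
      congr 1
      omega
    rw [h1, Nat.factorial_succ]
    push_cast
    have h2 : 2 * ((m : ℝ) + 2) * (m : ℝ) ^ (m + 1) ≤ ((m : ℝ) + 1) ^ (m + 2) := by
      have h3 := one_add_pow_ge (1 / (m : ℝ)) (by positivity) (m + 1)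
      have h4 : ((m : ℝ) + 1) ^ (m + 1) = (1 + 1 / (m : ℝ)) ^ (m + 1) * (m : ℝ) ^ (m + 1) := by
        rw [← mul_pow]
        congr 1
        field_simp
      have h5 : 2 * ((m : ℝ) + 2) ≤ ((m : ℝ) + 1) * (1 + 1 / (m : ℝ)) ^ (m + 1) := by
        have h6 : 1 + ((m + 1 : ℕ) : ℝ) * (1 / m) + ((m + 1 : ℕ) : ℝ) * (((m + 1 : ℕ) : ℝ) - 1) / 2
            * (1 / (m : ℝ)) ^ 2 = 1 + 3 / 2 * ((m + 1) / m) := by
          push_cast
          field_simp
          ring
        rw [h6] at h3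
        have h7 : (5 : ℝ) / 2 ≤ 1 + 3 / 2 * (((m : ℝ) + 1) / m) := by
          have : (1 : ℝ) ≤ ((m : ℝ) + 1) / m := by
            rw [le_div_iff₀ hm0]; linarith
          linarith
        calc 2 * ((m : ℝ) + 2) ≤ ((m : ℝ) + 1) * (5 / 2) := by nlinarith
          _ ≤ _ := mul_le_mul_of_nonneg_left (h7.trans h3) (by positivity)
      calc 2 * ((m : ℝ) + 2) * (m : ℝ) ^ (m + 1)
          ≤ ((m : ℝ) + 1) * (1 + 1 / (m : ℝ)) ^ (m + 1) * (m : ℝ) ^ (m + 1) :=
            mul_le_mul_of_nonneg_right h5 (by positivity)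
        _ = ((m : ℝ) + 1) ^ (m + 2) := by
            rw [mul_assoc, ← h4, ← pow_succ']
    calc 2 * (2 : ℝ) ^ (m - 1) * (((m : ℝ) + 1 + 1) * ((m + 1).factorial : ℝ))
        = 2 * ((m : ℝ) + 2) * (2 ^ (m - 1) * ((m + 1).factorial : ℝ)) := by ring
      _ ≤ 2 * ((m : ℝ) + 2) * (m : ℝ) ^ (m + 1) := mul_le_mul_of_nonneg_left ih (by positivity)
      _ ≤ _ := h2

/-- `2^n n! ≤ n^n` for `n ≥ 6`. -/
theorem two_pow_factorial_le_pow (n : ℕ) (hn : 6 ≤ n) :
    (2 : ℝ) ^ n * n.factorial ≤ (n : ℝ) ^ n := by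
  induction n, hn using Nat.le_induction with
  | base => norm_num [Nat.factorial]
  | succ n hn ih =>
    have hn0 : (0 : ℝ) < n := by
      have : 0 < n := by omega
      exact_mod_cast this
    rw [Nat.factorial_succ, pow_succ]
    push_cast
    have h2 : 2 * (n : ℝ) ^ n ≤ ((n : ℝ) + 1) ^ n := by
      have h3 := one_add_pow_ge (1 / (n : ℝ)) (by positivity) n
      have h4 : ((n : ℝ) + 1) ^ n = (1 + 1 / (n : ℝ)) ^ n * (n : ℝ) ^ n := by
        rw [← mul_pow]
        congr 1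
        field_simp
      rw [h4]
      refine mul_le_mul_of_nonneg_right (le_trans ?_ h3) (by positivity)
      have h5 : (n : ℝ) * (1 / n) = 1 := by field_simp
      have h6 : 0 ≤ (n : ℝ) * (n - 1) / 2 * (1 / (n : ℝ)) ^ 2 := by
        have : (1 : ℝ) ≤ n := by
          have : 1 ≤ n := by omega
          exact_mod_cast this
        have : (0 : ℝ) ≤ (n : ℝ) - 1 := by linarith
        positivity
      linarith
    calc (2 : ℝ) ^ n * 2 * (((n : ℝ) + 1) * (n.factorial : ℝ))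
        = 2 * ((n : ℝ) + 1) * (2 ^ n * n.factorial) := by ring
      _ ≤ 2 * ((n : ℝ) + 1) * (n : ℝ) ^ n := mul_le_mul_of_nonneg_left ih (by positivity)
      _ = ((n : ℝ) + 1) * (2 * (n : ℝ) ^ n) := by ring
      _ ≤ ((n : ℝ) + 1) * ((n : ℝ) + 1) ^ n := mul_le_mul_of_nonneg_left h2 (by positivity)
      _ = ((n : ℝ) + 1) ^ (n + 1) := by rw [← pow_succ']

/-- `((k+n-1)/n)^n n! ≤ k^n` for `k ≥ n ≥ 5`. -/
theorem amgm_factorial_le (n k : ℕ) (hn : 5 ≤ n) (hk : n ≤ k) :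
    (((k : ℝ) + n - 1) / n) ^ n * n.factorial ≤ (k : ℝ) ^ n := by
  have hk' : (n : ℝ) ≤ k := by exact_mod_cast hk
  have hn' : (5 : ℝ) ≤ n := by exact_mod_cast hn
  rcases Nat.lt_or_ge n 6 with h | h
  · have : n = 5 := by omega
    subst this
    have h1 : ((k : ℝ) + (5 : ℕ) - 1) / (5 : ℕ) ≤ 9 / 25 * k := by
      push_cast at *
      linarith
    have h0 : 0 ≤ ((k : ℝ) + (5 : ℕ) - 1) / (5 : ℕ) := by
      push_cast at *
      have : 0 ≤ (k : ℝ) + 5 - 1 := by linarith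
      positivity
    calc (((k : ℝ) + (5 : ℕ) - 1) / (5 : ℕ)) ^ 5 * (Nat.factorial 5 : ℝ)
        ≤ (9 / 25 * k) ^ 5 * (Nat.factorial 5 : ℝ) := by gcongr
      _ = ((9 / 25) ^ 5 * 120) * (k : ℝ) ^ 5 := by norm_num [Nat.factorial]; ring
      _ ≤ 1 * (k : ℝ) ^ 5 := by
          refine mul_le_mul_of_nonneg_right (by norm_num) (by positivity)
      _ = (k : ℝ) ^ 5 := one_mul _
  · have h1 := two_pow_factorial_le_pow n h
    have hnpos : (0 : ℝ) < n := by linarith
    have h2 : ((k : ℝ) + n - 1) / n ≤ 2 * k / n := by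
      gcongr
      linarith
    have h0 : 0 ≤ ((k : ℝ) + n - 1) / n := by
      have : 0 ≤ (k : ℝ) + n - 1 := by linarith
      positivity
    calc (((k : ℝ) + n - 1) / n) ^ n * n.factorial
        ≤ (2 * k / n) ^ n * n.factorial := by gcongr
      _ = (2 ^ n * n.factorial) / (n : ℝ) ^ n * (k : ℝ) ^ n := by
          rw [div_pow, mul_pow]; ring
      _ ≤ 1 * (k : ℝ) ^ n := by
          refine mul_le_mul_of_nonneg_right ?_ (by positivity)
          rw [div_le_one (by positivity)]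
          exact h1
      _ = (k : ℝ) ^ n := one_mul _

end Pool.Agent.Lib.MP_d1c05b_gt
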