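import Pool.Agent.Lib.MP_d1c05b_gt.Volume

open MeasureTheory
open scoped ContDiff ENNReal Pointwise

namespace Pool.Agent.Lib.MP_d1c05b_gt

variable {n : ℕ}

/-- The truncated unit cube `{x ∈ [0,1]ⁿ : ∑ x_j ≤ s}`. -/
def cutCube (n s : ℕ) : Set (Fin n → ℝ) :=
  {x | (∀ j, 0 ≤ x j ∧ x j ≤ 1) ∧ ∑ j, x j ≤ s}

theorem mem_cutCube {s : ℕ} {x : Fin n → ℝ} :
    x ∈ cutCube n s ↔ (∀ j, 0 ≤ x j ∧ x j ≤ 1) ∧ ∑ j, x j ≤ s := Iff.rfl

theorem mem_toricSet_cutCube {s : ℕ} {z : Fin n → ℂ} :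
    z ∈ toricSet (cutCube n s) ↔
      (∀ j, Real.pi * ‖z j‖ ^ 2 ≤ 1) ∧ ∑ j, Real.pi * ‖z j‖ ^ 2 ≤ s := by
  have hpi := Real.pi_pos
  unfold toricSet
  rw [Set.mem_ofPred_eq, mem_cutCube]
  constructor
  · rintro ⟨h1, h2⟩
    exact ⟨fun j => (h1 j).2, h2⟩
  · rintro ⟨h1, h2⟩
    exact ⟨fun j => ⟨by positivity, h1 j⟩, h2⟩

theorem polydisk_eq : polydisk n = toricSet (cutCube n n) := by
  ext z
  rw [mem_toricSet_cutCube]
  constructor
  · intro h
    refine ⟨h, ?_⟩
    calc ∑ j, Real.pi * ‖z j‖ ^ 2 ≤ ∑ _j : Fin n, (1 : ℝ) := Finset.sum_le_sum fun j _ => h j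
      _ = n := by simp
  · exact fun h => h.1

/-- The open truncated polydisk. -/
def openCut (n s : ℕ) : Set (Fin n → ℂ) :=
  {z | (∀ j, Real.pi * ‖z j‖ ^ 2 < 1) ∧ ∑ j, Real.pi * ‖z j‖ ^ 2 < s}

theorem isOpen_openCut (s : ℕ) : IsOpen (openCut n s) := by
  have h1 : IsOpen {z : Fin n → ℂ | ∀ j, Real.pi * ‖z j‖ ^ 2 < 1} := by
    rw [show {z : Fin n → ℂ | ∀ j, Real.pi * ‖z j‖ ^ 2 < 1}
      = ⋂ j, {z : Fin n → ℂ | Real.pi * ‖z j‖ ^ 2 < 1} by ext z; simp]
    exact isOpen_iInter_of_finite fun j => isOpen_lt (by fun_prop) (by fun_prop)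
  have h2 : IsOpen {z : Fin n → ℂ | ∑ j, Real.pi * ‖z j‖ ^ 2 < s} :=
    isOpen_lt (by fun_prop) (by fun_prop)
  exact h1.inter h2

theorem openCut_nonempty {s : ℕ} (hs : 1 ≤ s) : (openCut n s).Nonempty := by
  refine ⟨0, ?_, ?_⟩
  · intro j; simp
  · simp only [Pi.zero_apply, norm_zero]
    simp
    omega

theorem isClosed_toric (s : ℕ) : IsClosed (toricSet (cutCube n s)) := by
  have h : toricSet (cutCube n s) = {z : Fin n → ℂ | ∀ j, Real.pi * ‖z j‖ ^ 2 ≤ 1}
      ∩ {z : Fin n → ℂ | ∑ j, Real.pi * ‖z j‖ ^ 2 ≤ s} := by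
    ext z; rw [mem_toricSet_cutCube]; rfl
  rw [h]
  refine IsClosed.inter ?_ (isClosed_le (by fun_prop) (by fun_prop))
  rw [show {z : Fin n → ℂ | ∀ j, Real.pi * ‖z j‖ ^ 2 ≤ 1}
      = ⋂ j, {z : Fin n → ℂ | Real.pi * ‖z j‖ ^ 2 ≤ 1} by ext z; simp]
  exact isClosed_iInter fun j => isClosed_le (by fun_prop) (by fun_prop)

theorem isToricDomain_cutCube {s : ℕ} (hs : 1 ≤ s) : IsToricDomain (toricSet (cutCube n s)) := by
  have hpi := Real.pi_pos
  refine ⟨openCut n s, isOpen_openCut s, openCut_nonempty hs, ?_, ?_⟩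
  · rintro z ⟨h1, h2⟩ θ
    have hn : ∀ j, ‖Complex.exp (θ j * Complex.I) * z j‖ = ‖z j‖ := by
      intro j
      rw [norm_mul, Complex.norm_exp_ofReal_mul_I, one_mul]
    refine ⟨fun j => ?_, ?_⟩
    · rw [hn]; exact h1 j
    · simp only [hn]; exact h2
  · apply Set.Subset.antisymm
    · intro z hz
      rw [mem_toricSet_cutCube] at hz
      have hlim : Filter.Tendsto (fun m : ℕ => ((1 - 1 / ((m : ℝ) + 1)) : ℝ) • z)
          Filter.atTop (nhds z) := by
        have h1 : Filter.Tendsto (fun m : ℕ => ((1 - 1 / ((m : ℝ) + 1)) : ℝ))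
            Filter.atTop (nhds (1 - 0)) :=
          tendsto_const_nhds.sub tendsto_one_div_add_atTop_nhds_zero_nat
        rw [sub_zero] at h1
        have := h1.smul_const z
        rwa [one_smul] at this
      refine mem_closure_of_tendsto hlim (Filter.Eventually.of_forall fun m => ?_)
      set t : ℝ := 1 - 1 / ((m : ℝ) + 1) with ht
      have hm : (0 : ℝ) < (m : ℝ) + 1 := by positivity
      have ht0 : 0 ≤ t := by
        rw [ht]
        have : 1 / ((m : ℝ) + 1) ≤ 1 := by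
          rw [div_le_one hm]; linarith [(Nat.cast_nonneg m : (0 : ℝ) ≤ m)]
        linarith
      have ht1 : t < 1 := by
        rw [ht]
        have : 0 < 1 / ((m : ℝ) + 1) := by positivity
        linarith
      have hn : ∀ j, Real.pi * ‖(t • z) j‖ ^ 2 = t ^ 2 * (Real.pi * ‖z j‖ ^ 2) := by
        intro j
        rw [Pi.smul_apply, norm_smul, Real.norm_eq_abs, abs_of_nonneg ht0]
        ring
      have ht2 : t ^ 2 < 1 := by nlinarith
      have ht3 : 0 ≤ t ^ 2 := by positivity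
      refine ⟨fun j => ?_, ?_⟩
      · rw [hn]
        have := hz.1 j
        nlinarith
      · rw [Finset.sum_congr rfl fun j _ => hn j, ← Finset.mul_sum]
        have hs' : (1 : ℝ) ≤ s := by exact_mod_cast hs
        have h0 : 0 ≤ ∑ j, Real.pi * ‖z j‖ ^ 2 := Finset.sum_nonneg fun j _ => by positivity
        nlinarith [hz.2]
    · apply closure_minimal _ (isClosed_toric s)
      rintro z ⟨h1, h2⟩
      rw [mem_toricSet_cutCube]
      exact ⟨fun j => (h1 j).le, h2.le⟩

theorem isConvexProfile_cutCube {s : ℕ} (hs : 1 ≤ s) : IsConvexProfile (cutCube n s) := by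
  have hset : {x : Fin n → ℝ | (fun j => |x j|) ∈ cutCube n s}
      = {x : Fin n → ℝ | (∀ j, |x j| ≤ 1) ∧ ∑ j, |x j| ≤ s} := by
    ext x
    simp only [Set.mem_ofPred_eq, mem_cutCube]
    constructor
    · rintro ⟨h1, h2⟩; exact ⟨fun j => (h1 j).2, h2⟩
    · rintro ⟨h1, h2⟩; exact ⟨fun j => ⟨abs_nonneg _, h1 j⟩, h2⟩
  refine ⟨?_, ?_, ?_, isToricDomain_cutCube hs⟩
  · intro x hx j
    exact (hx.1 j).1
  · rw [hset]
    apply Metric.isCompact_of_isClosed_isBounded
    · have h : {x : Fin n → ℝ | (∀ j, |x j| ≤ 1) ∧ ∑ j, |x j| ≤ s}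
          = (⋂ j, {x : Fin n → ℝ | |x j| ≤ 1}) ∩ {x : Fin n → ℝ | ∑ j, |x j| ≤ s} := by
        ext x; simp
      rw [h]
      exact (isClosed_iInter fun j => isClosed_le (by fun_prop) (by fun_prop)).inter
        (isClosed_le (by fun_prop) (by fun_prop))
    · apply (Metric.isBounded_closedBall (x := (0 : Fin n → ℝ)) (r := 1)).subset
      rintro x ⟨h1, _⟩
      rw [Metric.mem_closedBall, dist_zero_right, pi_norm_le_iff_of_nonneg zero_le_one]
      exact fun j => by rw [Real.norm_eq_abs]; exact h1 j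
  · rw [hset]
    rintro x ⟨hx1, hx2⟩ y ⟨hy1, hy2⟩ a b ha hb hab
    have hj : ∀ j, |(a • x + b • y) j| ≤ a * |x j| + b * |y j| := by
      intro j
      rw [Pi.add_apply, Pi.smul_apply, Pi.smul_apply, smul_eq_mul, smul_eq_mul]
      refine (abs_add_le _ _).trans ?_
      rw [abs_mul, abs_mul, abs_of_nonneg ha, abs_of_nonneg hb]
    refine ⟨fun j => ?_, ?_⟩
    · refine (hj j).trans ?_
      have h1 := mul_le_mul_of_nonneg_left (hx1 j) ha
      have h2 := mul_le_mul_of_nonneg_left (hy1 j) hb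
      linarith
    · refine (Finset.sum_le_sum fun j _ => hj j).trans ?_
      rw [Finset.sum_add_distrib, ← Finset.mul_sum, ← Finset.mul_sum]
      have h1 := mul_le_mul_of_nonneg_left hx2 ha
      have h2 := mul_le_mul_of_nonneg_left hy2 hb
      calc a * ∑ j, |x j| + b * ∑ j, |y j| ≤ a * s + b * s := by linarith
        _ = s := by rw [← add_mul, hab, one_mul]

/-- The lower bound for the truncated polydisk for `k ≤ s`, or `s ≥ n`. -/
theorem le_value_cutCube [NeZero n] {s k : ℕ} (hs : 1 ≤ s) (hks : k ≤ s ∨ n ≤ s)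
    (c : Set (Fin n → ℂ) → ℝ≥0∞) (hc : GuttHutchingsLower k c) :
    (k : ℝ≥0∞) ≤ c (toricSet (cutCube n s)) := by
  refine le_trans ?_ (hc _ (isConvexProfile_cutCube hs))
  refine le_iInf₂ fun v hv => ?_
  have hw : (fun j => if v j = 0 then (0 : ℝ) else 1) ∈ cutCube n s := by
    refine ⟨fun j => ?_, ?_⟩
    · by_cases h : v j = 0 <;> simp [h]
    · rcases hks with hk | hk
      · have h1 : ∀ j, (if v j = 0 then (0 : ℝ) else 1) ≤ v j := by
          intro j
          by_cases h : v j = 0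
          · simp [h]
          · simp only [h, if_false]
            have : 1 ≤ v j := Nat.one_le_iff_ne_zero.2 h
            exact_mod_cast this
        calc ∑ j, (if v j = 0 then (0 : ℝ) else 1) ≤ ∑ j, (v j : ℝ) :=
              Finset.sum_le_sum fun j _ => h1 j
          _ = ((∑ j, v j : ℕ) : ℝ) := by push_cast; rfl
          _ = k := by rw [hv]
          _ ≤ s := by exact_mod_cast hk
      · calc ∑ j, (if v j = 0 then (0 : ℝ) else 1) ≤ ∑ _j : Fin n, (1 : ℝ) :=
              Finset.sum_le_sum fun j _ => by by_cases h : v j = 0 <;> simp [h]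
          _ = n := by simp
          _ ≤ s := by exact_mod_cast hk
  refine le_iSup₂_of_le _ hw ?_
  rw [← ENNReal.ofReal_natCast]
  apply ENNReal.ofReal_le_ofReal
  have h2 : ∀ j, (v j : ℝ) * (if v j = 0 then (0 : ℝ) else 1) = v j := by
    intro j
    by_cases h : v j = 0 <;> simp [h]
  rw [Finset.sum_congr rfl fun j _ => h2 j]
  rw [← Nat.cast_sum, hv]

theorem isSymplectomorphism_id : IsSymplectomorphism (id : (Fin n → ℂ) → (Fin n → ℂ)) where
  bijective := Function.bijective_id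
  smooth := contDiff_id
  preserves := by
    intro z u v
    rw [fderiv_id]
    rfl

/-- The polydisk lies in the cylinder `E(1,∞,…,∞)`, hence `c_k(P) ≤ k` for every `k`-capacity. -/
theorem capacity_polydisk_le [NeZero n] {k : ℕ} (c : Set (Fin n → ℂ) → ℝ≥0∞)
    (hc : IsCapacity k c) : c (polydisk n) ≤ k := by
  classical
  set a : Fin n → ℝ≥0∞ := fun j => if j = 0 then 1 else ⊤ with ha
  have ha0 : a 0 = 1 := by simp [ha]
  have hsub : id '' (polydisk n) ⊆ ellipsoid a := by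
    rw [Set.image_id]
    intro z hz
    have h1 : ∀ j, ENNReal.ofReal (Real.pi * ‖z j‖ ^ 2) / a j
        = if j = 0 then ENNReal.ofReal (Real.pi * ‖z 0‖ ^ 2) else 0 := by
      intro j
      by_cases h : j = 0
      · subst h; simp [ha]
      · simp [ha, h]
    change ∑ j, ENNReal.ofReal (Real.pi * ‖z j‖ ^ 2) / a j ≤ 1
    rw [Finset.sum_congr rfl fun j _ => h1 j]
    simp only [Finset.sum_ite_eq', Finset.mem_univ, if_true]
    rw [ENNReal.ofReal_le_one]
    exact hz 0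
  refine (hc.mono id _ _ isSymplectomorphism_id hsub).trans ?_
  rw [hc.ellipsoids a (fun j => by by_cases h : j = 0 <;> simp [ha, h]) ⟨0, by simp [ha]⟩]
  apply sInf_le
  simp only [Set.mem_ofPred_eq]
  let F : Finset (ℕ × Fin n) := (Finset.Icc 1 k).image fun m => (m, (0 : Fin n))
  have hF : F.card = k := by
    rw [Finset.card_image_of_injective _ (fun x y hxy => (Prod.mk.inj hxy).1)]
    simp
  have hsub2 : (F : Set (ℕ × Fin n)) ⊆ {p : ℕ × Fin n | 1 ≤ p.1 ∧ a p.2 ≠ ⊤ ∧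
      (p.1 : ℝ≥0∞) * a p.2 ≤ (k : ℝ≥0∞)} := by
    intro p hp
    rw [Finset.mem_coe, Finset.mem_image] at hp
    obtain ⟨m, hm, rfl⟩ := hp
    rw [Finset.mem_Icc] at hm
    refine ⟨hm.1, ?_, ?_⟩
    · simp only; rw [ha0]; exact ENNReal.one_ne_top
    · simp only; rw [ha0, mul_one]; exact_mod_cast hm.2
  calc (k : ℕ∞) = (F : Set (ℕ × Fin n)).encard := by
        rw [Set.encard_coe_eq_coe_finsetCard, hF]
    _ ≤ _ := Set.encard_le_encard hsub2

theorem volume_cut_pos {s : ℕ} (hs : 1 ≤ s) : 0 < volume (toricSet (cutCube n s)) := by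
  have h1 : 0 < volume (openCut n s) := (isOpen_openCut s).measure_pos _ (openCut_nonempty hs)
  refine h1.trans_le (measure_mono ?_)
  rintro z ⟨h1, h2⟩
  rw [mem_toricSet_cutCube]
  exact ⟨fun j => (h1 j).le, h2.le⟩

theorem volume_cut_lt {s : ℕ} (hs : s < n) :
    volume (toricSet (cutCube n s)) < volume (polydisk n) := by
  have hpi := Real.pi_pos
  have hn : (0 : ℝ) < n := by
    have : 0 < n := by omega
    exact_mod_cast this
  set W : Set (Fin n → ℂ) := {z | (∀ j, Real.pi * ‖z j‖ ^ 2 < 1) ∧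
    (s : ℝ) < ∑ j, Real.pi * ‖z j‖ ^ 2} with hW
  have hWo : IsOpen W := by
    have h1 : IsOpen {z : Fin n → ℂ | ∀ j, Real.pi * ‖z j‖ ^ 2 < 1} := by
      rw [show {z : Fin n → ℂ | ∀ j, Real.pi * ‖z j‖ ^ 2 < 1}
        = ⋂ j, {z : Fin n → ℂ | Real.pi * ‖z j‖ ^ 2 < 1} by ext z; simp]
      exact isOpen_iInter_of_finite fun j => isOpen_lt (by fun_prop) (by fun_prop)
    have h2 : IsOpen {z : Fin n → ℂ | (s : ℝ) < ∑ j, Real.pi * ‖z j‖ ^ 2} :=
      isOpen_lt (by fun_prop) (by fun_prop)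
    exact h1.inter h2
  have hWn : W.Nonempty := by
    set t : ℝ := ((s : ℝ) / n + 1) / 2 with ht
    have hsn : (s : ℝ) / n < 1 := by
      rw [div_lt_one hn]; exact_mod_cast hs
    have ht0 : 0 ≤ t := by rw [ht]; positivity
    have hr : Real.pi * ‖((Real.sqrt (t / Real.pi) : ℝ) : ℂ)‖ ^ 2 = t := by
      rw [Complex.norm_real, Real.norm_eq_abs, sq_abs, Real.sq_sqrt (by positivity)]
      field_simp
    refine ⟨fun _ => ((Real.sqrt (t / Real.pi) : ℝ) : ℂ), fun j => ?_, ?_⟩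
    · rw [hr, ht]; linarith
    · rw [Finset.sum_congr rfl fun j _ => hr, Finset.sum_const, Finset.card_univ,
        Fintype.card_fin, nsmul_eq_mul, ht]
      have h3 : (s : ℝ) = n * ((s : ℝ) / n) := by field_simp
      nlinarith
  have hWpos : 0 < volume W := hWo.measure_pos _ hWn
  have hdisj : Disjoint (toricSet (cutCube n s)) W := by
    rw [Set.disjoint_left]
    intro z hz hw
    rw [mem_toricSet_cutCube] at hz
    exact absurd hw.2 (not_lt.2 hz.2)
  have hsub : toricSet (cutCube n s) ∪ W ⊆ polydisk n := by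
    rintro z (hz | hz)
    · rw [mem_toricSet_cutCube] at hz
      exact hz.1
    · exact fun j => (hz.1 j).le
  have hle := measure_mono (μ := volume) hsub
  rw [measure_union hdisj hWo.measurableSet, volume_polydisk] at hle
  rw [volume_polydisk]
  have hfin : volume (toricSet (cutCube n s)) ≠ ⊤ := by
    intro h
    rw [h, top_add] at hle
    exact absurd hle (by simp)
  exact (ENNReal.lt_add_right hfin hWpos.ne').trans_le hle

end Pool.Agent.Lib.MP_d1c05b_gt
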