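import Pool.Agent.Lib.MP_d1c05b_gt.Ellip
import Pool.Agent.Lib.MP_d1c05b_gt.Numeric
import Pool.Agent.Lib.MP_d1c05b_gt.Toric

/-!
# Truncated polydisks beat the polydisk

For every `n ≥ 5` and every `k` with `κ(n) ≤ k < n` (there is such a `k`), the truncated polydisk
`{z : π|z_j|² ≤ 1, ∑ π|z_j|² ≤ k}` is a convex toric domain whose `k`-th capacity ratio is larger
than that of the polydisk, for all capacities which satisfy the lower bound of the
Gutt-Hutchings formula on convex toric domains.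
-/

open MeasureTheory
open scoped ContDiff ENNReal Pointwise

namespace Pool.Agent.Lib.MP_d1c05b_gt.TruncatedPolydisk

open Pool.Agent.Lib.MP_d1c05b_gt

/-- The ratio of the polydisk is at least `(kⁿ/n!)^{1/n}`. -/
theorem le_ratio_polydisk {n : ℕ} [NeZero n] (k : ℕ) (c : Set (Fin n → ℂ) → ℝ≥0∞)
    (hc : GuttHutchingsLower k c) :
    ENNReal.ofReal (((k : ℝ) ^ n / n.factorial) ^ ((1 : ℝ) / n)) ≤ ratio c (polydisk n) := by
  have hn : 1 ≤ n := Nat.one_le_iff_ne_zero.2 (NeZero.ne n)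
  have hn' : (n : ℝ) ≠ 0 := by exact_mod_cast NeZero.ne n
  have hf : (0 : ℝ) < n.factorial := by positivity
  have h1 : (k : ℝ≥0∞) ≤ c (polydisk n) := by
    rw [polydisk_eq]
    exact le_value_cutCube hn (Or.inr le_rfl) c hc
  unfold ratio
  rw [vol_polydisk]
  refine le_trans (le_of_eq ?_) (ENNReal.div_le_div_right h1 _)
  rw [← ENNReal.ofReal_natCast n.factorial, ENNReal.ofReal_rpow_of_pos hf,
    ← ENNReal.ofReal_natCast, ← ENNReal.ofReal_div_of_pos (by positivity)]
  congr 1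
  rw [Real.div_rpow (by positivity) hf.le, ← Real.rpow_natCast, ← Real.rpow_mul (by positivity),
    mul_one_div_cancel hn', Real.rpow_one]

/-- The maximal ratio of ellipsoids is at most that of the polydisk if `k ≥ n - 1 ≥ 4`. -/
theorem ellipsoidMax_le_polydisk {n : ℕ} [NeZero n] (hn : 5 ≤ n) (k : ℕ) (hk : n - 1 ≤ k)
    (c : Set (Fin n → ℂ) → ℝ≥0∞) (hcap : IsCapacity k c) (hc : GuttHutchingsLower k c) :
    ellipsoidMax c ≤ ratio c (polydisk n) := by
  have hf : (0 : ℝ) < n.factorial := by positivity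
  refine le_trans ?_ (le_ratio_polydisk k c hc)
  rcases Nat.lt_or_ge k n with h | h
  · have hkn : k = n - 1 := by omega
    refine (ellipsoidMax_le k c hcap (2 ^ (k - 1)) (by positivity)
      (fun m hm hs => prod_le_two_pow k m hm hs)).trans (ENNReal.ofReal_le_ofReal ?_)
    refine Real.rpow_le_rpow (by positivity) ?_ (by positivity)
    rw [le_div_iff₀ hf]
    have h1 := two_pow_mul_factorial_le k (by omega)
    rw [show k + 1 = n by omega] at h1
    exact h1
  · have hk0 : (0 : ℝ) ≤ ((k : ℝ) + n - 1) / n := by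
      have : (1 : ℝ) ≤ n := by
        have : 1 ≤ n := by omega
        exact_mod_cast this
      have h2 : (0 : ℝ) ≤ k := by positivity
      have : (0 : ℝ) ≤ (k : ℝ) + n - 1 := by linarith
      positivity
    refine (ellipsoidMax_le k c hcap ((((k : ℝ) + n - 1) / n) ^ n) (by positivity)
      (fun m _ hs => prod_le_amgm k m hs)).trans (ENNReal.ofReal_le_ofReal ?_)
    refine Real.rpow_le_rpow (by positivity) ?_ (by positivity)
    rw [le_div_iff₀ hf]
    exact amgm_factorial_le n k hn h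

/-- The truncated polydisk has a larger ratio than the polydisk if `1 ≤ k < n`. -/
theorem ratio_lt {n : ℕ} [NeZero n] (k : ℕ) (hk1 : 1 ≤ k) (hkn : k < n)
    (c : Set (Fin n → ℂ) → ℝ≥0∞) (hcap : IsCapacity k c) (hc : GuttHutchingsLower k c) :
    ratio c (polydisk n) < ratio c (toricSet (cutCube n k)) := by
  have hn : 1 ≤ n := by omega
  have hn' : (0 : ℝ) < (1 : ℝ) / n := by
    have : (0 : ℝ) < n := by exact_mod_cast hn
    positivity
  have hf0 : (n.factorial : ℝ≥0∞) ≠ 0 := by exact_mod_cast n.factorial_ne_zero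
  have hft : (n.factorial : ℝ≥0∞) ≠ ⊤ := ENNReal.natCast_ne_top _
  have hlt : vol (toricSet (cutCube n k)) < vol (polydisk n) := by
    unfold vol
    exact ENNReal.mul_lt_mul_right hf0 hft (volume_cut_lt hkn)
  have hpos : 0 < vol (toricSet (cutCube n k)) := by
    unfold vol
    exact ENNReal.mul_pos hf0 (volume_cut_pos hk1).ne'
  have hk0 : (k : ℝ≥0∞) ≠ 0 := by
    have : k ≠ 0 := by omega
    exact_mod_cast this
  have h1 : vol (toricSet (cutCube n k)) ^ ((1 : ℝ) / n) < vol (polydisk n) ^ ((1 : ℝ) / n) :=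
    ENNReal.rpow_lt_rpow hlt hn'
  have h2 := ENNReal.inv_lt_inv.2 h1
  have h3 : (k : ℝ≥0∞) / vol (polydisk n) ^ ((1 : ℝ) / n)
      < k / vol (toricSet (cutCube n k)) ^ ((1 : ℝ) / n) := by
    rw [ENNReal.div_eq_inv_mul, ENNReal.div_eq_inv_mul]
    exact ENNReal.mul_lt_mul_left hk0 (ENNReal.natCast_ne_top _) h2
  unfold ratio
  exact ((ENNReal.div_le_div_right (capacity_polydisk_le c hcap) _).trans_lt h3).trans_le
    (ENNReal.div_le_div_right (le_value_cutCube hk1 (Or.inl le_rfl) c hc) _)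

/-- For every `n ≥ 5` and every sequence of symplectic `k`-capacities of `ℂⁿ` which satisfy the
lower bound of the Gutt-Hutchings formula on convex toric domains, `κ(n)` exists,
`κ(n) ≤ n - 1`, and for every `k` with `κ(n) ≤ k < n` some convex toric domain has a larger
capacity ratio than the polydisk. -/
theorem result (n : ℕ) (hn : 5 ≤ n) (c : ℕ → Set (Fin n → ℂ) → ℝ≥0∞)
    (hcap : ∀ k, 1 ≤ k → IsCapacity k (c k)) (hGH : ∀ k, 1 ≤ k → GuttHutchingsLower k (c k)) :
    ∃ κ : ℕ, IsKappa c κ ∧ κ ≤ n - 1 ∧ ∀ k : ℕ, κ ≤ k → k < n →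
      ∃ X : Set (Fin n → ℂ), IsConvexToricDomain X ∧
        ratio (c k) (polydisk n) < ratio (c k) X := by
  classical
  have : NeZero n := ⟨by omega⟩
  have hmem : 2 ≤ n - 1 ∧ ∀ k, n - 1 ≤ k → ellipsoidMax (c k) ≤ ratio (c k) (polydisk n) :=
    ⟨by omega, fun k hk => ellipsoidMax_le_polydisk hn k hk (c k) (hcap k (by omega))
      (hGH k (by omega))⟩
  have hex : ∃ m : ℕ, 2 ≤ m ∧ ∀ k, m ≤ k →
      ellipsoidMax (c k) ≤ ratio (c k) (polydisk n) := ⟨n - 1, hmem⟩
  refine ⟨Nat.find hex, ⟨Nat.find_spec hex, fun m hm => Nat.find_min' hex hm⟩,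
    Nat.find_min' hex hmem, fun k hk hkn => ?_⟩
  have hk1 : 1 ≤ k := by
    have := (Nat.find_spec hex).1
    omega
  exact ⟨toricSet (cutCube n k), ⟨cutCube n k, isConvexProfile_cutCube hk1, rfl⟩,
    ratio_lt k hk1 hkn (c k) (hcap k hk1) (hGH k hk1)⟩

end Pool.Agent.Lib.MP_d1c05b_gt.TruncatedPolydisk
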