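import Pool.Agent.Lib.MP_d1c05b_gt.Defs

open MeasureTheory
open scoped ContDiff ENNReal Pointwise

namespace Pool.Agent.Lib.MP_d1c05b_gt

variable {n : ℕ}

/-- The diagonal real-linear map of `ℂⁿ`. -/
noncomputable def diag (s : Fin n → ℝ) : (Fin n → ℂ) →ₗ[ℝ] (Fin n → ℂ) :=
  LinearMap.pi fun j => (s j • LinearMap.id).comp (LinearMap.proj j)

theorem diag_apply (s : Fin n → ℝ) (z : Fin n → ℂ) (j : Fin n) : diag s z j = s j • z j := by
  simp [diag]

theorem det_diag (s : Fin n → ℝ) : LinearMap.det (diag s) = ∏ j, (s j) ^ 2 := by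
  unfold diag
  rw [LinearMap.det_pi]
  refine Finset.prod_congr rfl fun j _ => ?_
  rw [LinearMap.det_smul]
  simp [Complex.finrank_real_complex]

theorem volume_unitBall [NeZero n] :
    volume {u : Fin n → ℂ | ∑ j, ‖u j‖ ^ 2 ≤ 1} = ENNReal.ofReal (Real.pi ^ n / n.factorial) := by
  have : Nonempty (Fin n) := ⟨0⟩
  have h := Complex.volume_sum_rpow_le (ι := Fin n) (p := 2) (by norm_num) 1
  have hset : {x : Fin n → ℂ | (∑ i, ‖x i‖ ^ (2:ℝ)) ^ (1 / (2:ℝ)) ≤ 1}
      = {u : Fin n → ℂ | ∑ j, ‖u j‖ ^ 2 ≤ 1} := by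
    ext u
    simp only [Set.mem_ofPred_eq, Real.rpow_two]
    have h0 : 0 ≤ ∑ j, ‖u j‖ ^ 2 := Finset.sum_nonneg fun j _ => by positivity
    rw [← Real.sqrt_eq_rpow]
    constructor
    · intro h
      exact (Real.sqrt_le_one).1 h
    · intro h
      exact (Real.sqrt_le_one).2 h
  rw [hset] at h
  rw [h]
  simp only [ENNReal.ofReal_one, one_pow, one_mul, Fintype.card_fin]
  congr 1
  rw [show (2:ℝ) / 2 + 1 = (1:ℕ) + 1 by norm_num, Real.Gamma_nat_eq_factorial,
    show (2:ℝ) * n / 2 + 1 = n + 1 by ring, Real.Gamma_nat_eq_factorial]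
  simp

theorem volume_ellipsoid [NeZero n] (b : Fin n → ℝ) (hb : ∀ j, 0 < b j) :
    volume (ellipsoid fun j => ENNReal.ofReal (b j))
      = ENNReal.ofReal ((∏ j, b j) / n.factorial) := by
  have hpi := Real.pi_pos
  set s : Fin n → ℝ := fun j => Real.sqrt (Real.pi / b j) with hs
  have hspos : ∀ j, 0 < s j := fun j => Real.sqrt_pos.2 (by have := hb j; positivity)
  have hpre : (ellipsoid fun j => ENNReal.ofReal (b j))
      = diag s ⁻¹' {u : Fin n → ℂ | ∑ j, ‖u j‖ ^ 2 ≤ 1} := by
    ext z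
    simp only [ellipsoid, Set.mem_ofPred_eq, Set.mem_preimage, diag_apply]
    have h1 : ∀ j, ENNReal.ofReal (Real.pi * ‖z j‖ ^ 2) / ENNReal.ofReal (b j)
        = ENNReal.ofReal (‖s j • z j‖ ^ 2) := by
      intro j
      rw [← ENNReal.ofReal_div_of_pos (hb j)]
      congr 1
      rw [norm_smul, mul_pow, Real.norm_eq_abs, sq_abs, hs]
      simp only
      rw [Real.sq_sqrt (by have := hb j; positivity)]
      ring
    rw [Finset.sum_congr rfl fun j _ => h1 j, ← ENNReal.ofReal_sum_of_nonneg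
      (fun j _ => by positivity), ENNReal.ofReal_le_one]
  have hdet : LinearMap.det (diag s) = ∏ j, (Real.pi / b j) := by
    rw [det_diag]
    refine Finset.prod_congr rfl fun j _ => ?_
    rw [hs]; simp only
    rw [Real.sq_sqrt (by have := hb j; positivity)]
  have hdetpos : 0 < ∏ j, (Real.pi / b j) := Finset.prod_pos fun j _ => by
    have := hb j; positivity
  rw [hpre, Measure.addHaar_preimage_linearMap _ (by rw [hdet]; exact hdetpos.ne'),
    volume_unitBall, hdet, abs_of_pos (by positivity), ← ENNReal.ofReal_mul (by positivity)]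
  congr 1
  rw [Finset.prod_div_distrib, Finset.prod_const, Finset.card_univ, Fintype.card_fin]
  have h2 : 0 < ∏ j, b j := Finset.prod_pos fun j _ => hb j
  field_simp

theorem vol_ellipsoid [NeZero n] (b : Fin n → ℝ) (hb : ∀ j, 0 < b j) :
    vol (ellipsoid fun j => ENNReal.ofReal (b j)) = ENNReal.ofReal (∏ j, b j) := by
  unfold vol
  rw [volume_ellipsoid b hb, ← ENNReal.ofReal_natCast, ← ENNReal.ofReal_mul (by positivity)]
  congr 1
  have : (n.factorial : ℝ) ≠ 0 := by positivity
  field_simp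

theorem volume_polydisk : volume (polydisk n) = 1 := by
  have h : polydisk n = Set.pi Set.univ
      fun _ : Fin n => Metric.closedBall (0 : ℂ) (Real.sqrt (1 / Real.pi)) := by
    ext z
    simp only [polydisk, Set.mem_ofPred_eq, Set.mem_pi, Set.mem_univ, forall_true_left,
      Metric.mem_closedBall, dist_zero_right]
    refine forall_congr' fun j => ?_
    have hpi := Real.pi_pos
    have h0 : (0 : ℝ) ≤ 1 / Real.pi := by positivity
    constructor
    · intro h
      rw [Real.le_sqrt (norm_nonneg _) h0, le_div_iff₀ Real.pi_pos, mul_comm]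
      exact h
    · intro h
      rw [Real.le_sqrt (norm_nonneg _) h0, le_div_iff₀ Real.pi_pos, mul_comm] at h
      exact h
  rw [h, volume_pi_pi]
  refine Finset.prod_eq_one fun j _ => ?_
  rw [Complex.volume_closedBall, ← ENNReal.ofReal_pow (Real.sqrt_nonneg _),
    Real.sq_sqrt (by positivity)]
  have h2 : ((NNReal.pi : NNReal) : ℝ≥0∞) = ENNReal.ofReal Real.pi := by
    rw [ENNReal.ofReal, ← NNReal.coe_real_pi, Real.toNNReal_coe]
  rw [h2, ← ENNReal.ofReal_mul (by positivity)]
  rw [show 1 / Real.pi * Real.pi = 1 by field_simp]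
  simp

theorem vol_polydisk : vol (polydisk n) = (n.factorial : ℝ≥0∞) := by
  unfold vol; rw [volume_polydisk, mul_one]

end Pool.Agent.Lib.MP_d1c05b_gt
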